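import Pool.Agent.H54.Bridge

/-!
# Bi-isolated d.c.e. degrees exist in every model of `P⁻ + IΣ₁`

The definitions (structures for `0, 1, +, ×, exp, <`, bounded and `Σ₁` formulas, models of
`P⁻ + IΣ₁`, c.e. and d.c.e. sets, Turing functionals, setwise reducibility, degrees, isolation) are
in `Pool.Agent.H54.Defs`.
-/

namespace Pool.Agent.Results.MP_90e0c0_lc.BiIsolated

open Pool.Agent.H54.BiIso

universe u

/-- Every model of `P⁻ + IΣ₁` has a bi-isolated d.c.e. degree. -/
theorem result (M : Type u) [ArithStr M] (h : ModelISigma1 M) :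
    ∃ d : Set (Set M), BiIsolated d :=
  exists_biIsolated h

end Pool.Agent.Results.MP_90e0c0_lc.BiIsolated
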